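import Pool.Agent.Lib.MP_edb5be_nt.PD.Iface

/-!
Project PD (MP_edb5be_nt), module BASE: a good residue class.
-/

set_option autoImplicit false

namespace Pool.Agent.Lib.MP_edb5be_nt.PD.H43

open Finset Filter Pool.Agent.Lib.MP_edb5be_nt.EX Pool.Agent.Lib.MP_edb5be_nt.PD

theorem pr_mono {U V : Finset (List ℕ)} (h : U ⊆ V) : pr U ≤ pr V := by
  unfold pr
  exact Finset.sum_le_sum_of_subset_of_nonneg h (fun _ _ _ => by positivity)

theorem pr_split (U : Finset (List ℕ)) (p : List ℕ → Prop) [DecidablePred p] :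
    pr U = pr (U.filter p) + pr (U.filter fun u => ¬ p u) := by
  unfold pr
  exact (Finset.sum_filter_add_sum_filter_not U p _).symm

theorem small (θ : ℝ) (h0 : 0 < θ) (h1 : θ < 1) : ∃ h₀ : ℕ, ∀ h : ℕ, h₀ ≤ h →
    99 / 100 ≤ (1 - 1 / 2 ^ (4 * h) : ℝ) ^ h - 2 * h * θ ^ h := by
  have t1 := tendsto_self_mul_const_pow_of_lt_one h0.le h1
  have t2 := tendsto_self_mul_const_pow_of_lt_one (r := (1 / 16 : ℝ)) (by norm_num) (by norm_num)
  have e1 : ∀ᶠ n : ℕ in atTop, (n : ℝ) * θ ^ n < 1 / 400 := t1.eventually (gt_mem_nhds (by norm_num))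
  have e2 : ∀ᶠ n : ℕ in atTop, (n : ℝ) * (1 / 16 : ℝ) ^ n < 1 / 400 :=
    t2.eventually (gt_mem_nhds (by norm_num))
  obtain ⟨h₀, hh⟩ := eventually_atTop.1 (e1.and e2)
  refine ⟨h₀, fun h hle => ?_⟩
  obtain ⟨a1, a2⟩ := hh h hle
  have hp : (2 : ℝ) ^ (4 * h) = 16 ^ h := by
    rw [pow_mul]; norm_num
  have hq : (1 : ℝ) / 2 ^ (4 * h) = (1 / 16) ^ h := by
    rw [hp, one_div_pow]
  have hb : (1 : ℝ) + h * (-(1 / 16 : ℝ) ^ h) ≤ (1 + (-(1 / 16 : ℝ) ^ h)) ^ h := by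
    apply one_add_mul_le_pow
    have : (1 / 16 : ℝ) ^ h ≤ 1 := pow_le_one₀ (by norm_num) (by norm_num)
    linarith
  have hc : (1 + (-(1 / 16 : ℝ) ^ h)) = 1 - 1 / 2 ^ (4 * h) := by rw [hq]; ring
  rw [hc] at hb
  nlinarith

theorem rw_low (hT : TailStatement) : ∃ h₀ : ℕ, ∀ h : ℕ, h₀ ≤ h → 99 / 100 ≤ pr (Rw h) := by
  obtain ⟨hA, θ, h0, h1, hB⟩ := hT
  obtain ⟨h₀, hh⟩ := small θ h0 h1
  refine ⟨h₀, fun h hle => ?_⟩
  have e := pr_split (wds (4 * h) h) (fun u => 199 * h ≤ 100 * u.sum ∧ 100 * u.sum ≤ 201 * h)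
  rw [hA] at e
  have b := hB (4 * h) h
  have c := hh h hle
  have d : pr (Rw h) = pr ((wds (4 * h) h).filter fun u =>
    199 * h ≤ 100 * u.sum ∧ 100 * u.sum ≤ 201 * h) := rfl
  rw [d]
  linarith

theorem cc_prime {u : List ℕ} (hu : u ≠ []) : ¬ (3 : ℤ) ∣ (cc u : ℤ) := by
  match u, hu with
  | [], h => exact absurd rfl h
  | a :: u, _ =>
    intro h
    have e : (cc (a :: u) : ℤ) = 2 ^ u.sum + 3 * cc u := by
      simp [cc]
    rw [e] at h
    have h2 : (3 : ℤ) ∣ 2 ^ u.sum := by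
      have := dvd_sub h (Dvd.intro (cc u : ℤ) rfl : (3 : ℤ) ∣ 3 * (cc u : ℤ))
      simpa using this
    have h3 : ((3 : ℕ) : ℤ) ∣ 2 := Int.Prime.dvd_pow' Nat.prime_three h2
    norm_num at h3

theorem base (hW : WordsStatement) (hM : MeanStatement) (hT : TailStatement)
    (hC : CcTStatement) : BaseStatement := by
  obtain ⟨h₀, hh⟩ := rw_low hT
  refine ⟨10000, 20 * h₀ + 20, fun N hN => ?_⟩
  set J := N / 20 with hJ
  have hJ0 : h₀ ≤ J := by omega
  have hN0 : h₀ ≤ N := by omega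
  have hN1 : 1 ≤ N := by omega
  set U := WW 10000 N 0 with hU
  have hUdef : U = (Rw N).filter fun u => cc u ≤ 10000 * 2 ^ u.sum := rfl
  have hlen : ∀ u ∈ U, u.length = N := by
    intro u hu
    rw [hUdef, mem_filter] at hu
    have := hu.1
    unfold Rw at this
    rw [mem_filter] at this
    exact ((hW.1 _ _ _).1 this.1).1
  have hlenJ : ∀ u ∈ Uw J, u.length = J := by
    intro u hu
    unfold Uw at hu
    rw [mem_filter] at hu
    exact ((hW.1 _ _ _).1 hu.1).1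
  -- probabilities
  have pU : 88 / 100 ≤ pr U := by
    have e := pr_split (Rw N) (fun u => cc u ≤ 10000 * 2 ^ u.sum)
    have c := hC 10000 (4 * N) N (by norm_num)
    have s : ((Rw N).filter fun u => ¬ (cc u ≤ 10000 * 2 ^ u.sum)) ⊆
        ((wds (4 * N) N).filter fun u => ¬ (cc u ≤ 10000 * 2 ^ u.sum)) := by
      intro u hu
      rw [mem_filter] at hu ⊢
      refine ⟨?_, hu.2⟩
      have := hu.1
      unfold Rw at this
      exact (mem_filter.1 this).1
    have s' := pr_mono s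
    have q : √((10000 : ℕ) : ℝ) = 100 := by
      rw [show ((10000 : ℕ) : ℝ) = 100 ^ 2 by norm_num]
      exact Real.sqrt_sq (by norm_num)
    rw [q] at c
    have r := hh N hN0
    rw [hUdef]
    linarith
  have pJ : 99 / 100 ≤ pr (Uw J) := by
    refine (hh J hJ0).trans (pr_mono ?_)
    intro u hu
    unfold Rw at hu
    unfold Uw
    rw [mem_filter] at hu ⊢
    exact ⟨hu.1, by omega⟩
  -- mean
  have mJ := hM J 0 (Uw J) (fun _ => 1) hlenJ (fun _ => rfl)
  have fper : ∀ x : ℤ, Fd J (x + 3 ^ J) = Fd J x := by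
    intro x
    have := mJ.1 x
    simpa [Fd] using this
  have fsum : ∑ x ∈ range (3 ^ J), Fd J x = 3 ^ J * pr (Uw J) := by
    have := mJ.2
    simpa [Fd] using this
  have mN := hM N J U (Fd J) hlen fper
  have avg : ∑ _y ∈ range (3 ^ (N + J)), (8 / 10 : ℝ) ≤
      ∑ y ∈ range (3 ^ (N + J)), su U (Fd J) y := by
    rw [mN.2, fsum, sum_const, card_range, nsmul_eq_mul]
    push_cast
    have h88 : (8 / 10 : ℝ) ≤ pr U * pr (Uw J) := by nlinarith
    have h3 : (0 : ℝ) < 3 ^ (N + J) := by positivity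
    calc (3 : ℝ) ^ (N + J) * (8 / 10) ≤ 3 ^ (N + J) * (pr U * pr (Uw J)) :=
          mul_le_mul_of_nonneg_left h88 h3.le
      _ = 3 ^ N * pr U * (3 ^ J * pr (Uw J)) := by rw [pow_add]; ring
  obtain ⟨y₀, -, hy₀⟩ := exists_le_of_sum_le ⟨0, mem_range.2 (by positivity)⟩ avg
  refine ⟨(y₀ : ℤ), ?_, ?_⟩
  · intro h3
    have hemp : U.filter (Ad (y₀ : ℤ)) = ∅ := by
      rw [filter_eq_empty_iff]
      intro u hu had
      have hl := hlen u hu
      have hne : u ≠ [] := by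
        rintro rfl
        simp at hl
        omega
      apply cc_prime hne
      unfold Ad at had
      have h3d : (3 : ℤ) ∣ 2 ^ u.sum * (y₀ : ℤ) - cc u :=
        (dvd_pow_self 3 (by omega)).trans had
      have h4 : (3 : ℤ) ∣ 2 ^ u.sum * (y₀ : ℤ) := Dvd.dvd.mul_left h3 _
      have := dvd_sub h4 h3d
      simpa using this
    have : su U (Fd J) (y₀ : ℤ) = 0 := by
      unfold su
      rw [hemp, sum_empty]
    rw [this] at hy₀
    norm_num at hy₀
  · intro y hy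
    obtain ⟨k, hk⟩ := hy
    have hp : Function.Periodic (su U (Fd J)) (3 ^ (N + J) : ℤ) := fun y => mN.1 y
    have e : y = (y₀ : ℤ) + k * (3 ^ (N + J) : ℤ) := by linarith [hk, mul_comm ((3 : ℤ) ^ (N + J)) k]
    have e2 := hp.int_mul k (y₀ : ℤ)
    rw [Int.cast_id] at e2
    rw [e, e2]
    exact hy₀

end Pool.Agent.Lib.MP_edb5be_nt.PD.H43
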